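import Pool.Agent.T9h72.EX.Spec

/-!
# Project EX (helper72, MP_7ba380_an), piece INFR: values on the diagonals
-/

set_option autoImplicit false

open Complex Filter Topology Metric Set
open Pool.Agent.Helper797.Bs Pool.Agent.K7.H38.MD

namespace Pool.Agent.T9h70.EX

open Pool.Agent.T9h72.EX

lemma ext1_zero (s : ℝ) :
    ext1 0 0 s = ((-(Real.cos √(s ^ 2 + (Real.pi / 2) ^ 2)) : ℝ) : ℂ) := by
  unfold ext1
  simp

lemma fs_diag (s σ : ℝ) (hσ : σ = 1 ∨ σ = -1) :
    fs (s / √2, σ * (s / √2)) =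
      ((-(σ * Real.cos √(s ^ 2 + (Real.pi / 2) ^ 2)) : ℝ) : ℂ) := by
  unfold fs
  congr 2
  dsimp only
  have h2 : (√2 : ℝ) ^ 2 = 2 := Real.sq_sqrt (by norm_num)
  have hs2 : (s / √2) ^ 2 = s ^ 2 / 2 := by rw [div_pow, h2]
  have hσ2 : σ ^ 2 = 1 := by rcases hσ with h | h <;> rw [h] <;> norm_num
  have e1 : (s / √2) ^ 2 + (σ * (s / √2)) ^ 2 = s ^ 2 := by
    rw [mul_pow, hσ2, hs2]
    ring
  have e2 : 2 * (s / √2) * (σ * (s / √2)) = σ * s ^ 2 := by
    have : 2 * (s / √2) * (σ * (s / √2)) = 2 * σ * (s / √2) ^ 2 := by ring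
    rw [this, hs2]
    ring
  rw [e1, e2]
  unfold a
  rcases eq_or_ne s 0 with h | h
  · subst h
    have h3 : √((0 : ℝ) ^ 2 + (Real.pi / 2) ^ 2) = Real.pi / 2 := by
      rw [zero_pow two_ne_zero, zero_add]
      exact Real.sqrt_sq (by positivity)
    rw [h3, Real.cos_pi_div_two]
    simp
  · have h3 : σ * s ^ 2 / s ^ 2 = σ := by
      rw [mul_div_assoc, div_self (pow_ne_zero 2 h), mul_one]
    rw [h3]

theorem infr : S_INFR := by
  intro s
  refine ⟨fun l => ⟨?_, ?_⟩, ?_, ?_⟩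
  · unfold gl
    simp
  · unfold gl
    simp
  · rw [ext1_zero]
    have := fs_diag s 1 (Or.inl rfl)
    rw [one_mul, one_mul] at this
    exact this
  · rw [ext1_zero]
    have := fs_diag s (-1) (Or.inr rfl)
    rw [neg_one_mul, neg_one_mul] at this
    rw [this]
    push_cast
    ring

end Pool.Agent.T9h70.EX
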